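import Pool.Agent.Lib.MP_85963d_gt.H51.LincDefs

/-!
# LINC-B: the linear algebra of the characteristic function
-/

set_option autoImplicit false

set_option linter.unusedSectionVars false

open Matrix Finset

namespace Pool.Agent.MP85963d.H84

/-- the Euclidean norm -/
noncomputable def nrm {n : ℕ} (z : Fin n → ℂ) : ℝ := Real.sqrt (∑ i, ‖z i‖ ^ 2)

theorem nrm_nonneg {n : ℕ} (z : Fin n → ℂ) : 0 ≤ nrm z := Real.sqrt_nonneg _

theorem nrm_sq {n : ℕ} (z : Fin n → ℂ) : nrm z ^ 2 = ∑ i, ‖z i‖ ^ 2 :=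
  Real.sq_sqrt (Finset.sum_nonneg fun _ _ => sq_nonneg _)

theorem le_nrm {n : ℕ} (z : Fin n → ℂ) (i : Fin n) : ‖z i‖ ≤ nrm z := by
  apply Real.le_sqrt_of_sq_le
  exact Finset.single_le_sum (f := fun i => ‖z i‖ ^ 2) (fun _ _ => sq_nonneg _) (Finset.mem_univ i)

theorem norm_dot_le {n : ℕ} (a b : Fin n → ℂ) : ‖∑ i, a i * b i‖ ≤ nrm a * nrm b := by
  have h1 : ‖∑ i, a i * b i‖ ≤ ∑ i, ‖a i‖ * ‖b i‖ :=
    (norm_sum_le _ _).trans (Finset.sum_le_sum fun i _ => (norm_mul_le _ _))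
  refine h1.trans ?_
  have h2 := Finset.sum_mul_sq_le_sq_mul_sq Finset.univ (fun i => ‖a i‖) (fun i => ‖b i‖)
  rw [nrm, nrm, ← Real.sqrt_mul (Finset.sum_nonneg fun _ _ => sq_nonneg _)]
  exact Real.le_sqrt_of_sq_le h2

theorem nrm_pos {n : ℕ} {z : Fin n → ℂ} (hz : z ≠ 0) : 0 < nrm z := by
  obtain ⟨i, hi⟩ := Function.ne_iff.1 hz
  exact lt_of_lt_of_le (norm_pos_iff.2 hi) (le_nrm z i)

/-- the bound of a determinant -/
theorem norm_det_le {n : ℕ} (A : Matrix (Fin n) (Fin n) ℂ) (x : ℝ) (hx : ∀ i j, ‖A i j‖ ≤ x) :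
    ‖A.det‖ ≤ (n.factorial : ℝ) * x ^ n := by
  have h := Matrix.det_le (A := A) (abv := IsAbsoluteValue.toAbsoluteValue (norm : ℂ → ℝ)) (x := x)
    (fun i j => hx i j)
  rw [Fintype.card_fin, nsmul_eq_mul] at h
  exact h

section

variable {d₀ d : ℕ} (C : ℝ) (M : Matrix (Fin d) (Fin d) ℂ) (E : Matrix (Fin d₀) (Fin d) ℝ)

/-- the complexification of `E` -/
noncomputable def Ec : Matrix (Fin d₀) (Fin d) ℂ := E.map ((↑) : ℝ → ℂ)

theorem Nmat_eq : H51.Nmat C M E = M + (C : ℂ) • ((Ec E)ᵀ * Ec E) := by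
  unfold H51.Nmat Ec
  congr 2
  ext i j
  simp [Matrix.mul_apply]

theorem mulVec_Ec (z : Fin d → ℂ) (k : Fin d₀) : (Ec E *ᵥ z) k = ∑ i, (E k i : ℂ) * z i := rfl

theorem norm_Ec_mulVec_le (hE : ∀ k, ∑ i, E k i ^ 2 ≤ 1) (z : Fin d → ℂ) (k : Fin d₀) :
    ‖(Ec E *ᵥ z) k‖ ≤ nrm z := by
  rw [mulVec_Ec]
  refine (norm_dot_le (fun i => (E k i : ℂ)) z).trans ?_
  have h1 : nrm (fun i => (E k i : ℂ)) ≤ 1 := by
    rw [nrm]
    apply Real.sqrt_le_one.mpr
    refine le_trans (le_of_eq ?_) (hE k)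
    exact Finset.sum_congr rfl fun i _ => by
      rw [Complex.norm_real, Real.norm_eq_abs, sq_abs]
  calc nrm (fun i => (E k i : ℂ)) * nrm z ≤ 1 * nrm z :=
        mul_le_mul_of_nonneg_right h1 (nrm_nonneg z)
    _ = nrm z := one_mul _

theorem dot_Nmat (z : Fin d → ℂ) :
    (∑ i, (starRingEnd ℂ) (z i) * (H51.Nmat C M E *ᵥ z) i).re =
      (∑ i, (starRingEnd ℂ) (z i) * (M *ᵥ z) i).re + C * ∑ k, ‖∑ i, (E k i : ℂ) * z i‖ ^ 2 := by
  have h1 : (∑ i, (starRingEnd ℂ) (z i) * (H51.Nmat C M E *ᵥ z) i) =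
      (∑ i, (starRingEnd ℂ) (z i) * (M *ᵥ z) i) +
        (C : ℂ) * ∑ k, (starRingEnd ℂ) ((Ec E *ᵥ z) k) * (Ec E *ᵥ z) k := by
    have h2 : ∑ i, (starRingEnd ℂ) (z i) * (((Ec E)ᵀ * Ec E) *ᵥ z) i =
        ∑ k, (starRingEnd ℂ) ((Ec E *ᵥ z) k) * (Ec E *ᵥ z) k := by
      rw [← Matrix.mulVec_mulVec]
      simp only [Matrix.mulVec, dotProduct, Matrix.transpose_apply, map_sum, map_mul]
      simp only [Finset.mul_sum, Finset.sum_mul]
      rw [Finset.sum_comm]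
      refine Finset.sum_congr rfl fun k _ => ?_
      rw [Finset.sum_comm]
      refine Finset.sum_congr rfl fun i _ => Finset.sum_congr rfl fun j _ => ?_
      have : (starRingEnd ℂ) (Ec E k j) = Ec E k j := Complex.conj_ofReal _
      rw [this]
      ring
    rw [← h2, Finset.mul_sum, ← Finset.sum_add_distrib]
    refine Finset.sum_congr rfl fun i _ => ?_
    rw [Nmat_eq, Matrix.add_mulVec, Matrix.smul_mulVec, Pi.add_apply, Pi.smul_apply, smul_eq_mul]
    ring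
  have h3 : (∑ k, (starRingEnd ℂ) ((Ec E *ᵥ z) k) * (Ec E *ᵥ z) k).re =
      ∑ k, ‖∑ i, (E k i : ℂ) * z i‖ ^ 2 := by
    rw [Complex.re_sum]
    refine Finset.sum_congr rfl fun k _ => ?_
    rw [← Complex.normSq_eq_conj_mul_self, Complex.ofReal_re, Complex.normSq_eq_norm_sq]
    rfl
  rw [h1, Complex.add_re, Complex.re_ofReal_mul, h3]

variable {c : ℝ} (hc : 0 < c) (hN : ∀ z : Fin d → ℂ, c * ∑ i, ‖z i‖ ^ 2 ≤
      (∑ i, (starRingEnd ℂ) (z i) * (M.mulVec z) i).re + C * ∑ k, ‖∑ i, (E k i : ℂ) * z i‖ ^ 2)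

theorem nrm_conj {n : ℕ} (z : Fin n → ℂ) : nrm (fun i => (starRingEnd ℂ) (z i)) = nrm z := by
  unfold nrm
  simp

include hc hN in
theorem coercive (z : Fin d → ℂ) : c * nrm z ≤ nrm (H51.Nmat C M E *ᵥ z) := by
  by_cases hz : z = 0
  · subst hz
    have : nrm (0 : Fin d → ℂ) = 0 := by simp [nrm]
    rw [this, mul_zero]
    exact nrm_nonneg _
  · have h1 := hN z
    rw [← dot_Nmat, ← nrm_sq] at h1
    have h2 := (Complex.re_le_norm (∑ i, (starRingEnd ℂ) (z i) * (H51.Nmat C M E *ᵥ z) i)).trans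
      (norm_dot_le (fun i => (starRingEnd ℂ) (z i)) (H51.Nmat C M E *ᵥ z))
    rw [nrm_conj] at h2
    have h3 := nrm_pos hz
    have h4 : nrm z * (c * nrm z) ≤ nrm z * nrm (H51.Nmat C M E *ᵥ z) := by
      calc nrm z * (c * nrm z) = c * nrm z ^ 2 := by ring
        _ ≤ _ := h1.trans h2
    exact le_of_mul_le_mul_left h4 h3

include hc hN in
theorem det_ne : (H51.Nmat C M E).det ≠ 0 := by
  intro h
  obtain ⟨z, hz, hz0⟩ := Matrix.exists_mulVec_eq_zero_iff.2 h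
  have h1 := coercive C M E hc hN z
  rw [hz0] at h1
  have h2 : nrm (0 : Fin d → ℂ) = 0 := by simp [nrm]
  rw [h2] at h1
  exact absurd h1 (not_le.2 (mul_pos hc (nrm_pos hz)))

/-- the small matrix -/
noncomputable def Tm : Matrix (Fin d₀) (Fin d₀) ℂ :=
  1 - (C : ℂ) • (Ec E * (H51.Nmat C M E)⁻¹ * (Ec E)ᵀ)

include hc hN in
theorem det_div : M.det / (H51.Nmat C M E).det = (Tm C M E).det := by
  have hne := det_ne C M E hc hN
  have hu : IsUnit (H51.Nmat C M E).det := isUnit_iff_ne_zero.2 hne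
  rw [div_eq_iff hne, mul_comm]
  have h1 : (Tm C M E).det = (1 - ((C : ℂ) • ((H51.Nmat C M E)⁻¹ * (Ec E)ᵀ)) * Ec E).det := by
    rw [Matrix.det_one_sub_mul_comm, Tm, Matrix.mul_smul, Matrix.mul_assoc]
  rw [h1, ← Matrix.det_mul]
  congr 1
  rw [Matrix.mul_sub, Matrix.mul_one, Matrix.smul_mul, Matrix.mul_smul, Matrix.mul_assoc,
    ← Matrix.mul_assoc (H51.Nmat C M E), Matrix.mul_nonsing_inv _ hu, Matrix.one_mul]
  conv_rhs => rw [Nmat_eq C M E]
  rw [add_sub_cancel_right]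

include hc hN in
theorem nrm_inv_le (y : Fin d → ℂ) : nrm ((H51.Nmat C M E)⁻¹ *ᵥ y) ≤ nrm y / c := by
  have hne := det_ne C M E hc hN
  have hu : IsUnit (H51.Nmat C M E).det := isUnit_iff_ne_zero.2 hne
  have h1 := coercive C M E hc hN ((H51.Nmat C M E)⁻¹ *ᵥ y)
  rw [Matrix.mulVec_mulVec, Matrix.mul_nonsing_inv _ hu, Matrix.one_mulVec] at h1
  rw [le_div_iff₀ hc, mul_comm]
  exact h1

include hc hN in
theorem norm_T_le (hC : 0 ≤ C) (hE : ∀ k, ∑ i, E k i ^ 2 ≤ 1) (k l : Fin d₀) :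
    ‖Tm C M E k l‖ ≤ 1 + C / c := by
  have h1 : ‖(Ec E * (H51.Nmat C M E)⁻¹ * (Ec E)ᵀ) k l‖ ≤ 1 / c := by
    have h2 : (Ec E * (H51.Nmat C M E)⁻¹ * (Ec E)ᵀ) k l =
        (Ec E *ᵥ ((H51.Nmat C M E)⁻¹ *ᵥ (fun i => (E l i : ℂ)))) k := by
      rw [Matrix.mulVec_mulVec]
      rfl
    rw [h2]
    refine (norm_Ec_mulVec_le E hE _ k).trans ?_
    refine (nrm_inv_le C M E hc hN _).trans ?_
    apply div_le_div_of_nonneg_right _ hc.le
    rw [nrm]
    apply Real.sqrt_le_one.mpr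
    refine le_trans (le_of_eq ?_) (hE l)
    exact Finset.sum_congr rfl fun i _ => by
      rw [Complex.norm_real, Real.norm_eq_abs, sq_abs]
  rw [Tm, Matrix.sub_apply, Matrix.smul_apply, smul_eq_mul]
  refine (norm_sub_le _ _).trans (add_le_add ?_ ?_)
  · rw [Matrix.one_apply]
    split_ifs <;> simp
  · rw [norm_mul, Complex.norm_real, Real.norm_eq_abs, abs_of_nonneg hC]
    calc C * ‖(Ec E * (H51.Nmat C M E)⁻¹ * (Ec E)ᵀ) k l‖ ≤ C * (1 / c) :=
          mul_le_mul_of_nonneg_left h1 hC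
      _ = C / c := by ring

end

/-- LINALG. -/
theorem linalg_holds : H51.LinalgStatement := by
  intro d₀ c C hc hC
  set K₁ : ℝ := (d₀.factorial : ℝ) * (1 + C / c) ^ d₀ with hK₁
  set K₃ : ℝ := (d₀.factorial : ℝ) * (1 + C) ^ d₀ with hK₃
  set K₂ : ℝ := Real.sqrt (2 * C / c) * (Real.sqrt d₀ * (d₀ * K₁ / c)) with hK₂
  have hK₁0 : 0 ≤ K₁ := by positivity
  have hK₂0 : 0 ≤ K₂ := by positivity
  have hK₃0 : 0 < K₃ := by positivity
  refine ⟨K₁ + K₁ * (2 / c) + K₂, 1 / K₃, by positivity, ?_⟩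
  intro d M E hE hN
  have hT := det_div C M E hc hN
  have hTb : ‖(Tm C M E).det‖ ≤ K₁ :=
    norm_det_le _ _ fun k l => norm_T_le C M E hc hN hC hE k l
  refine ⟨det_ne C M E hc hN, ?_, ?_, ?_⟩
  · rw [hT]
    have : 0 ≤ K₁ * (2 / c) := by positivity
    linarith
  · intro ε z hε hz hMz
    rw [hT]
    have hnM : nrm (M *ᵥ z) ≤ ε * nrm z := by
      apply Real.sqrt_le_iff.2
      refine ⟨mul_nonneg hε (nrm_nonneg z), ?_⟩
      rw [mul_pow, nrm_sq]
      exact hMz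
    have hz0 := nrm_pos hz
    rcases le_or_gt ε (c / 2) with hεc | hεc
    · -- small `ε`
      set u : Fin d₀ → ℂ := Ec E *ᵥ z with hu
      have hne := det_ne C M E hc hN
      have hun : IsUnit (H51.Nmat C M E).det := isUnit_iff_ne_zero.2 hne
      have hTu : Tm C M E *ᵥ u = Ec E *ᵥ ((H51.Nmat C M E)⁻¹ *ᵥ (M *ᵥ z)) := by
        have h1 : M *ᵥ z = H51.Nmat C M E *ᵥ z - (C : ℂ) • ((Ec E)ᵀ *ᵥ u) := by
          rw [Nmat_eq, Matrix.add_mulVec, Matrix.smul_mulVec, hu, Matrix.mulVec_mulVec,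
            add_sub_cancel_right]
        have h2 : (H51.Nmat C M E)⁻¹ *ᵥ (M *ᵥ z) =
            z - (C : ℂ) • ((H51.Nmat C M E)⁻¹ *ᵥ ((Ec E)ᵀ *ᵥ u)) := by
          have h3 : (H51.Nmat C M E)⁻¹ *ᵥ (H51.Nmat C M E *ᵥ z) = z := by
            rw [Matrix.mulVec_mulVec, Matrix.nonsing_inv_mul _ hun, Matrix.one_mulVec]
          rw [h1, Matrix.mulVec_sub, h3, Matrix.mulVec_smul]
        have h4 : Ec E *ᵥ ((H51.Nmat C M E)⁻¹ *ᵥ ((Ec E)ᵀ *ᵥ u)) =
            (Ec E * (H51.Nmat C M E)⁻¹ * (Ec E)ᵀ) *ᵥ u := by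
          rw [Matrix.mulVec_mulVec, Matrix.mulVec_mulVec, Matrix.mul_assoc]
        rw [h2, Matrix.mulVec_sub, Matrix.mulVec_smul, h4, ← hu, Tm, Matrix.sub_mulVec,
          Matrix.one_mulVec, Matrix.smul_mulVec]
      have hTu' : ∀ k, ‖(Tm C M E *ᵥ u) k‖ ≤ ε / c * nrm z := by
        intro k
        rw [hTu]
        refine (norm_Ec_mulVec_le E hE _ k).trans ((nrm_inv_le C M E hc hN _).trans ?_)
        rw [div_mul_eq_mul_div]
        exact div_le_div_of_nonneg_right hnM hc.le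
      have hadj : ∀ k l, ‖(Tm C M E).adjugate k l‖ ≤ K₁ := by
        intro k l
        rw [Matrix.adjugate_apply]
        apply norm_det_le
        intro i j
        rw [Matrix.updateRow_apply]
        split_ifs with h
        · have h1 : ‖(Pi.single k (1 : ℂ) : Fin d₀ → ℂ) j‖ ≤ 1 := by
            rw [Pi.single_apply]
            split_ifs <;> simp
          have h2 : 0 ≤ C / c := by positivity
          linarith
        · exact norm_T_le C M E hc hN hC hE i j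
      have hdu : ∀ k, ‖(Tm C M E).det‖ * ‖u k‖ ≤ d₀ * K₁ / c * ε * nrm z := by
        intro k
        have h1 : (Tm C M E).det * u k = ((Tm C M E).adjugate *ᵥ (Tm C M E *ᵥ u)) k := by
          rw [Matrix.mulVec_mulVec, Matrix.adjugate_mul, Matrix.smul_mulVec, Matrix.one_mulVec]
          rfl
        rw [← norm_mul, h1]
        calc ‖((Tm C M E).adjugate *ᵥ (Tm C M E *ᵥ u)) k‖
            ≤ ∑ l, ‖(Tm C M E).adjugate k l * (Tm C M E *ᵥ u) l‖ :=
              norm_sum_le Finset.univ fun l => (Tm C M E).adjugate k l * (Tm C M E *ᵥ u) l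
          _ ≤ ∑ _l : Fin d₀, K₁ * (ε / c * nrm z) := by
              refine Finset.sum_le_sum fun l _ => ?_
              rw [norm_mul]
              exact mul_le_mul (hadj k l) (hTu' l) (norm_nonneg _) hK₁0
          _ = d₀ * K₁ / c * ε * nrm z := by
              rw [Finset.sum_const, Finset.card_univ, Fintype.card_fin, nsmul_eq_mul]
              ring
      have hnu : ‖(Tm C M E).det‖ * nrm u ≤ Real.sqrt d₀ * (d₀ * K₁ / c * ε * nrm z) := by
        have hr : 0 ≤ d₀ * K₁ / c * ε * nrm z := by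
          have := nrm_nonneg z
          positivity
        have h1 : (‖(Tm C M E).det‖ * nrm u) ^ 2 ≤
            (Real.sqrt d₀ * (d₀ * K₁ / c * ε * nrm z)) ^ 2 := by
          rw [mul_pow, nrm_sq, mul_pow, Real.sq_sqrt (Nat.cast_nonneg _), Finset.mul_sum]
          calc ∑ i, ‖(Tm C M E).det‖ ^ 2 * ‖u i‖ ^ 2
              ≤ ∑ _i : Fin d₀, (d₀ * K₁ / c * ε * nrm z) ^ 2 := by
                refine Finset.sum_le_sum fun i _ => ?_
                rw [← mul_pow]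
                exact pow_le_pow_left₀ (by positivity) (hdu i) 2
            _ = d₀ * (d₀ * K₁ / c * ε * nrm z) ^ 2 := by
                rw [Finset.sum_const, Finset.card_univ, Fintype.card_fin, nsmul_eq_mul]
        exact abs_le_of_sq_le_sq' h1 (by positivity) |>.2
      -- the lower bound of `u`
      have hlow : nrm z ≤ Real.sqrt (2 * C / c) * nrm u := by
        have h1 := hN z
        have h2 := (Complex.re_le_norm (∑ i, (starRingEnd ℂ) (z i) * (M *ᵥ z) i)).trans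
          (norm_dot_le (fun i => (starRingEnd ℂ) (z i)) (M *ᵥ z))
        rw [nrm_conj] at h2
        have h3 : ∑ k, ‖∑ i, (E k i : ℂ) * z i‖ ^ 2 = nrm u ^ 2 := (nrm_sq u).symm
        rw [h3, ← nrm_sq] at h1
        have h4 : nrm z * nrm (M *ᵥ z) ≤ c / 2 * nrm z ^ 2 := by
          calc nrm z * nrm (M *ᵥ z) ≤ nrm z * (ε * nrm z) :=
                mul_le_mul_of_nonneg_left hnM (nrm_nonneg z)
            _ = ε * nrm z ^ 2 := by ring
            _ ≤ c / 2 * nrm z ^ 2 := mul_le_mul_of_nonneg_right hεc (sq_nonneg _)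
        have h5 : nrm z ^ 2 ≤ 2 * C / c * nrm u ^ 2 := by
          rw [div_mul_eq_mul_div, le_div_iff₀ hc]
          nlinarith
        have h6 : nrm z ^ 2 ≤ (Real.sqrt (2 * C / c) * nrm u) ^ 2 := by
          rw [mul_pow, Real.sq_sqrt (by positivity)]
          exact h5
        exact abs_le_of_sq_le_sq' h6 (mul_nonneg (Real.sqrt_nonneg _) (nrm_nonneg u)) |>.2
      have hfin : ‖(Tm C M E).det‖ * nrm z ≤ K₂ * ε * nrm z := by
        calc ‖(Tm C M E).det‖ * nrm z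
            ≤ ‖(Tm C M E).det‖ * (Real.sqrt (2 * C / c) * nrm u) :=
              mul_le_mul_of_nonneg_left hlow (norm_nonneg _)
          _ = Real.sqrt (2 * C / c) * (‖(Tm C M E).det‖ * nrm u) := by ring
          _ ≤ Real.sqrt (2 * C / c) * (Real.sqrt d₀ * (d₀ * K₁ / c * ε * nrm z)) :=
              mul_le_mul_of_nonneg_left hnu (Real.sqrt_nonneg _)
          _ = K₂ * ε * nrm z := by rw [hK₂]; ring
      have h7 := le_of_mul_le_mul_right hfin hz0
      have h8 : 0 ≤ (K₁ + K₁ * (2 / c)) * ε := by positivity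
      calc ‖(Tm C M E).det‖ ≤ K₂ * ε := h7
        _ ≤ (K₁ + K₁ * (2 / c) + K₂) * ε := by linarith [add_mul (K₁ + K₁ * (2 / c)) K₂ ε]
    · have h1 : K₁ ≤ K₁ * (2 / c) * ε := by
        have h2 : 1 ≤ 2 / c * ε := by
          rw [div_mul_eq_mul_div, le_div_iff₀ hc]
          linarith
        calc K₁ = K₁ * 1 := (mul_one _).symm
          _ ≤ K₁ * (2 / c * ε) := mul_le_mul_of_nonneg_left h2 hK₁0
          _ = K₁ * (2 / c) * ε := by ring
      have h3 : 0 ≤ (K₁ + K₂) * ε := by positivity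
      calc ‖(Tm C M E).det‖ ≤ K₁ := hTb
        _ ≤ K₁ * (2 / c) * ε := h1
        _ ≤ (K₁ + K₁ * (2 / c) + K₂) * ε := by linarith [add_mul K₁ K₂ ε, add_mul (K₁ + K₁ * (2 / c)) K₂ ε, add_mul K₁ (K₁ * (2 / c)) ε]
  · intro hM
    subst hM
    have h1 : (H51.Nmat C 1 E).det = (1 + (C : ℂ) • (Ec E * (Ec E)ᵀ)).det := by
      rw [Nmat_eq, ← Matrix.smul_mul, Matrix.det_one_add_mul_comm, Matrix.mul_smul]
    have h2 : ‖(H51.Nmat C 1 E).det‖ ≤ K₃ := by
      rw [h1]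
      apply norm_det_le
      intro k l
      rw [Matrix.add_apply, Matrix.smul_apply, smul_eq_mul]
      refine (norm_add_le _ _).trans (add_le_add ?_ ?_)
      · rw [Matrix.one_apply]
        split_ifs <;> simp
      · rw [norm_mul, Complex.norm_real, Real.norm_eq_abs, abs_of_nonneg hC]
        have h3 : ‖(Ec E * (Ec E)ᵀ) k l‖ ≤ 1 := by
          have h4 : (Ec E * (Ec E)ᵀ) k l = (Ec E *ᵥ fun i => (E l i : ℂ)) k := rfl
          rw [h4]
          refine (norm_Ec_mulVec_le E hE _ k).trans ?_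
          rw [nrm]
          apply Real.sqrt_le_one.mpr
          refine le_trans (le_of_eq ?_) (hE l)
          exact Finset.sum_congr rfl fun i _ => by
            rw [Complex.norm_real, Real.norm_eq_abs, sq_abs]
        calc C * ‖(Ec E * (Ec E)ᵀ) k l‖ ≤ C * 1 := mul_le_mul_of_nonneg_left h3 hC
          _ = C := mul_one C
    have h3 : 0 < ‖(H51.Nmat C 1 E).det‖ := norm_pos_iff.2 (det_ne C 1 E hc hN)
    rw [Matrix.det_one, norm_div, norm_one]
    exact one_div_le_one_div_of_le h3 h2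

end Pool.Agent.MP85963d.H84
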