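import Mathlib
import Pool.Agent.Lib.MP_85963d_gt.H70.Forms3

/-!
# MP_85963d_gt: Lipschitz bounds of the weight (proof)
-/

set_option autoImplicit false

open MeasureTheory Set Filter Topology Real

namespace Pool.Agent.Lib.MP_85963d_gt.H84

open Pool.Agent.Lib.MP_85963d_gt.H70

/-- two numbers bounded by `α` whose difference is at most `A * D` -/
structure LB (D α A a a' : ℝ) : Prop where
  h0 : 0 ≤ α
  h1 : 0 ≤ A
  ba : |a| ≤ α
  ba' : |a'| ≤ α
  l : |a - a'| ≤ A * D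

theorem LB.mul {D α A a a' β B b b' : ℝ} (h : LB D α A a a') (k : LB D β B b b') :
    LB D (α * β) (A * β + α * B) (a * b) (a' * b') := by
  refine ⟨mul_nonneg h.h0 k.h0, add_nonneg (mul_nonneg h.h1 k.h0) (mul_nonneg h.h0 k.h1),
    ?_, ?_, ?_⟩
  · rw [abs_mul]; exact mul_le_mul h.ba k.ba (abs_nonneg _) h.h0
  · rw [abs_mul]; exact mul_le_mul h.ba' k.ba' (abs_nonneg _) h.h0
  · have e : a * b - a' * b' = (a - a') * b + a' * (b - b') := by ring
    rw [e]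
    have h1 : |(a - a') * b| ≤ (A * D) * β := by
      rw [abs_mul]
      exact mul_le_mul h.l k.ba (abs_nonneg _) (le_trans (abs_nonneg _) h.l)
    have h2 : |a' * (b - b')| ≤ α * (B * D) := by
      rw [abs_mul]
      exact mul_le_mul h.ba' k.l (abs_nonneg _) h.h0
    calc _ ≤ |(a - a') * b| + |a' * (b - b')| := abs_add_le _ _
      _ ≤ (A * D) * β + α * (B * D) := add_le_add h1 h2
      _ = _ := by ring

theorem LB.add {D α A a a' β B b b' : ℝ} (h : LB D α A a a') (k : LB D β B b b') :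
    LB D (α + β) (A + B) (a + b) (a' + b') := by
  refine ⟨add_nonneg h.h0 k.h0, add_nonneg h.h1 k.h1, ?_, ?_, ?_⟩
  · exact le_trans (abs_add_le _ _) (add_le_add h.ba k.ba)
  · exact le_trans (abs_add_le _ _) (add_le_add h.ba' k.ba')
  · have e : a + b - (a' + b') = (a - a') + (b - b') := by ring
    rw [e]
    calc _ ≤ |a - a'| + |b - b'| := abs_add_le _ _
      _ ≤ A * D + B * D := add_le_add h.l k.l
      _ = _ := by ring

theorem LB.sub {D α A a a' β B b b' : ℝ} (h : LB D α A a a') (k : LB D β B b b') :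
    LB D (α + β) (A + B) (a - b) (a' - b') := by
  refine ⟨add_nonneg h.h0 k.h0, add_nonneg h.h1 k.h1, ?_, ?_, ?_⟩
  · exact le_trans (abs_sub _ _) (add_le_add h.ba k.ba)
  · exact le_trans (abs_sub _ _) (add_le_add h.ba' k.ba')
  · have e : a - b - (a' - b') = (a - a') - (b - b') := by ring
    rw [e]
    calc _ ≤ |a - a'| + |b - b'| := abs_sub _ _
      _ ≤ A * D + B * D := add_le_add h.l k.l
      _ = _ := by ring

theorem LB.const {D α a : ℝ} (h : |a| ≤ α) : LB D α 0 a a :=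
  ⟨le_trans (abs_nonneg _) h, le_rfl, h, h, by simp⟩

/-- the inverse of the root -/
theorem LB.invSqrt {D X x x' c : ℝ} (hc : 0 < c) (hX : 0 ≤ X) (hx : c ^ 2 ≤ x)
    (hx' : c ^ 2 ≤ x') (h : |x - x'| ≤ X * D) :
    LB D (1 / c) (1 / c ^ 2 * (1 / (2 * c)) * X) (1 / √x) (1 / √x') := by
  have hr : c ≤ √x := by
    rw [← Real.sqrt_sq hc.le]; exact Real.sqrt_le_sqrt hx
  have hr' : c ≤ √x' := by
    rw [← Real.sqrt_sq hc.le]; exact Real.sqrt_le_sqrt hx'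
  have p : 0 < √x := hc.trans_le hr
  have p' : 0 < √x' := hc.trans_le hr'
  have x0 : 0 ≤ x := (sq_nonneg c).trans hx
  have x0' : 0 ≤ x' := (sq_nonneg c).trans hx'
  refine ⟨by positivity, by positivity, ?_, ?_, ?_⟩
  · rw [abs_of_pos (by positivity)]
    exact one_div_le_one_div_of_le hc hr
  · rw [abs_of_pos (by positivity)]
    exact one_div_le_one_div_of_le hc hr'
  · have e : 1 / √x - 1 / √x' = 1 / (√x * √x') * (1 / (√x + √x')) * (x' - x) := by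
      have e1 : x' - x = (√x' - √x) * (√x + √x') := by
        have := Real.sq_sqrt x0
        have := Real.sq_sqrt x0'
        nlinarith
      rw [e1]
      field_simp
    rw [e, abs_mul, abs_of_pos (by positivity : 0 < 1 / (√x * √x') * (1 / (√x + √x'))),
      abs_sub_comm]
    have b1 : 1 / (√x * √x') ≤ 1 / c ^ 2 := by
      apply one_div_le_one_div_of_le (by positivity)
      nlinarith
    have b2 : 1 / (√x + √x') ≤ 1 / (2 * c) := by
      apply one_div_le_one_div_of_le (by positivity)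
      linarith
    calc 1 / (√x * √x') * (1 / (√x + √x')) * |x - x'|
        ≤ 1 / c ^ 2 * (1 / (2 * c)) * (X * D) := by
          apply mul_le_mul _ h (abs_nonneg _) (by positivity)
          exact mul_le_mul b1 b2 (by positivity) (by positivity)
      _ = _ := by ring

theorem omn_eq (P Q S K Y : ℝ) :
    omn P Q S K Y = (S + Y * K) * (1 / √(P ^ 2 + Y * (Q ^ 2 + S ^ 2)) *
      (1 / √(P ^ 2 + Y * (Q ^ 2 + S ^ 2))) * (1 / √(P ^ 2 + Y * (Q ^ 2 + S ^ 2)))) := by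
  unfold omn
  rw [div_eq_mul_inv]
  congr 1
  rw [one_div, ← mul_inv, ← mul_inv]
  congr 1
  ring

theorem omn'_eq (P Q S K Y : ℝ) :
    omn' P Q S K Y = K * (1 / √(P ^ 2 + Y * (Q ^ 2 + S ^ 2)) *
      (1 / √(P ^ 2 + Y * (Q ^ 2 + S ^ 2))) * (1 / √(P ^ 2 + Y * (Q ^ 2 + S ^ 2)))) -
      3 / 2 * (S + Y * K) * (Q ^ 2 + S ^ 2) * ((1 / √(P ^ 2 + Y * (Q ^ 2 + S ^ 2)) *
      (1 / √(P ^ 2 + Y * (Q ^ 2 + S ^ 2))) * (1 / √(P ^ 2 + Y * (Q ^ 2 + S ^ 2)))) *
      (1 / √(P ^ 2 + Y * (Q ^ 2 + S ^ 2))) * (1 / √(P ^ 2 + Y * (Q ^ 2 + S ^ 2)))) := by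
  unfold omn'
  rw [div_eq_mul_inv, div_eq_mul_inv]
  simp only [one_div]
  generalize (√(P ^ 2 + Y * (Q ^ 2 + S ^ 2))) = r
  rw [← inv_pow, ← inv_pow]
  ring

theorem omn_hasDerivAt (P Q S K Y : ℝ) (hP : 0 < P) (hY : 0 ≤ Y) :
    HasDerivAt (omn P Q S K) (omn' P Q S K Y) Y := by
  have hx : 0 < P ^ 2 + Y * (Q ^ 2 + S ^ 2) := by positivity
  have hr : 0 < √(P ^ 2 + Y * (Q ^ 2 + S ^ 2)) := Real.sqrt_pos.2 hx
  have h1 : HasDerivAt (fun y : ℝ => P ^ 2 + y * (Q ^ 2 + S ^ 2)) (Q ^ 2 + S ^ 2) Y := by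
    have := ((hasDerivAt_id Y).mul_const (Q ^ 2 + S ^ 2)).const_add (P ^ 2)
    simpa using this
  have h2 := h1.sqrt hx.ne'
  have h3 := h2.pow 3
  have h4 : HasDerivAt (fun y : ℝ => S + y * K) K Y := by
    have := ((hasDerivAt_id Y).mul_const K).const_add S
    simpa using this
  have h5 := h4.div h3 (pow_pos hr 3).ne'
  have e : omn' P Q S K Y = (K * √(P ^ 2 + Y * (Q ^ 2 + S ^ 2)) ^ 3 - (S + Y * K) *
      (((3 : ℕ) : ℝ) * √(P ^ 2 + Y * (Q ^ 2 + S ^ 2)) ^ (3 - 1) *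
      ((Q ^ 2 + S ^ 2) / (2 * √(P ^ 2 + Y * (Q ^ 2 + S ^ 2)))))) /
      (√(P ^ 2 + Y * (Q ^ 2 + S ^ 2)) ^ 3) ^ 2 := by
    unfold omn'
    generalize (√(P ^ 2 + Y * (Q ^ 2 + S ^ 2))) = r at hr
    field_simp
    push_cast
    ring
  rw [e]
  exact h5

/-- the data of one evaluation, all bounded and Lipschitz in `D` -/
theorem core {c C b D P Q S K P' Q' S' K' Y X N : ℝ} (hc : 0 < c) (hC : 0 ≤ C) (hb : 0 ≤ b)
    (hY : 0 ≤ Y) (hYb : Y ≤ b)
    (h1 : c ≤ P) (h3 : c ≤ S) (h4 : S ≤ C) (h6 : |K| ≤ C)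
    (k1 : c ≤ P') (k3 : c ≤ S') (k4 : S' ≤ C) (k6 : |K'| ≤ C)
    (hX : 0 ≤ X) (hN : 0 ≤ N)
    (dx : |(P ^ 2 + Y * (Q ^ 2 + S ^ 2)) - (P' ^ 2 + Y * (Q' ^ 2 + S' ^ 2))| ≤ X * D)
    (dN : |(S + Y * K) - (S' + Y * K')| ≤ N * D) :
    LB D (1 / c) (1 / c ^ 2 * (1 / (2 * c)) * X) (1 / √(P ^ 2 + Y * (Q ^ 2 + S ^ 2)))
      (1 / √(P' ^ 2 + Y * (Q' ^ 2 + S' ^ 2))) ∧
    LB D (C + b * C) N (S + Y * K) (S' + Y * K') := by
  have sq_le : ∀ p q s : ℝ, c ≤ p → c ^ 2 ≤ p ^ 2 + Y * (q ^ 2 + s ^ 2) := by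
    intro p q s hp
    have : c ^ 2 ≤ p ^ 2 := by nlinarith
    have : 0 ≤ Y * (q ^ 2 + s ^ 2) := by positivity
    linarith
  have nb : ∀ s k : ℝ, c ≤ s → s ≤ C → |k| ≤ C → |s + Y * k| ≤ C + b * C := by
    intro s k hs hs' hk
    calc |s + Y * k| ≤ |s| + |Y * k| := abs_add_le _ _
      _ ≤ C + b * C := by
          rw [abs_mul, abs_of_nonneg (hc.le.trans hs), abs_of_nonneg hY]
          exact add_le_add hs' (mul_le_mul hYb hk (abs_nonneg _) hb)
  exact ⟨LB.invSqrt hc hX (sq_le _ _ _ h1) (sq_le _ _ _ k1) dx,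
    ⟨by positivity, hN, nb _ _ h3 h4 h6, nb _ _ k3 k4 k6, dN⟩⟩

theorem gb {c C q s : ℝ} (hc : 0 < c) (hC : 0 ≤ C) (hs : c ≤ s) (hs' : s ≤ C) (hq : |q| ≤ C) :
    |q ^ 2 + s ^ 2| ≤ 2 * C ^ 2 := by
  rw [abs_of_nonneg (by positivity)]
  have : q ^ 2 ≤ C ^ 2 := sq_le_sq.2 (by rwa [abs_of_nonneg hC])
  have : s ^ 2 ≤ C ^ 2 := by nlinarith
  linarith

theorem wlip_holds : WLipStatement := by
  refine ⟨fun P Q S K Y hP hY => omn_hasDerivAt P Q S K Y hP hY, ?_⟩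
  intro c C b hc hC hb
  -- constants
  set m : ℝ := 1 / c with hm
  set ν : ℝ := C + b * C with hν
  -- Lipschitz constant of the inverse root for each of the two distances
  set u1 : ℝ := 1 / c ^ 2 * (1 / (2 * c)) * (2 * C + 2 * C * b + 1) with hu1
  set u2 : ℝ := 1 / c ^ 2 * (1 / (2 * c)) * (2 * C + 2 * C * b + b) with hu2
  have hm0 : 0 ≤ m := by positivity
  have hν0 : 0 ≤ ν := by positivity
  have hu10 : 0 ≤ u1 := by positivity
  have hu20 : 0 ≤ u2 := by positivity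
  set c1 : ℝ := ν * (m * m * m) with hc1
  set l1 : ℝ := 1 * (m * m * m) + ν * ((u1 * m + m * u1) * m + m * m * u1) with hl1
  set t2 : ℝ := (u2 * m + m * u2) * m + m * m * u2 with ht2
  set f2 : ℝ := (t2 * m + m * m * m * u2) * m + m * m * m * m * u2 with hf2
  set g2 : ℝ := ((0 * ν + 3 / 2 * (1 + b)) * (2 * C ^ 2) + 3 / 2 * ν * (1 + 2 * C)) with hg2
  set c2 : ℝ := C * (m * m * m) + 3 / 2 * ν * (2 * C ^ 2) * (m * m * m * m * m) with hc2
  set l2 : ℝ := (1 * (m * m * m) + C * t2) +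
    (g2 * (m * m * m * m * m) + 3 / 2 * ν * (2 * C ^ 2) * f2) with hl2
  have hc10 : 0 ≤ c1 := by positivity
  have hc20 : 0 ≤ c2 := by positivity
  have hl10 : 0 ≤ l1 := by positivity
  have ht20 : 0 ≤ t2 := by positivity
  have hf20 : 0 ≤ f2 := by positivity
  have hg20 : 0 ≤ g2 := by positivity
  have hl20 : 0 ≤ l2 := by positivity
  -- first: Lipschitz estimate of omn
  have A1 : ∀ P Q S K P' Q' S' K' Y : ℝ, c ≤ P → P ≤ C → c ≤ S → S ≤ C → |Q| ≤ C → |K| ≤ C →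
      c ≤ P' → P' ≤ C → c ≤ S' → S' ≤ C → |Q'| ≤ C → |K'| ≤ C → 0 ≤ Y → Y ≤ b →
      LB (|P - P'| + |S - S'| + Y * (|K - K'| + |Q ^ 2 - Q' ^ 2|)) c1 l1
        (omn P Q S K Y) (omn P' Q' S' K' Y) := by
    intro P Q S K P' Q' S' K' Y h1 h2 h3 h4 h5 h6 k1 k2 k3 k4 k5 k6 hY hYb
    set D := |P - P'| + |S - S'| + Y * (|K - K'| + |Q ^ 2 - Q' ^ 2|) with hD
    have dP : |P - P'| ≤ D := by
      have : 0 ≤ |S - S'| + Y * (|K - K'| + |Q ^ 2 - Q' ^ 2|) := by positivity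
      rw [hD]; linarith
    have dS : |S - S'| ≤ D := by
      have : 0 ≤ |P - P'| + Y * (|K - K'| + |Q ^ 2 - Q' ^ 2|) := by positivity
      rw [hD]; linarith
    have dQ : Y * |Q ^ 2 - Q' ^ 2| ≤ D := by
      have : 0 ≤ |P - P'| + |S - S'| + Y * |K - K'| := by positivity
      rw [hD]; linarith
    have dSK : |S - S'| + Y * |K - K'| ≤ D := by
      have : 0 ≤ |P - P'| + Y * |Q ^ 2 - Q' ^ 2| := by positivity
      rw [hD]; linarith
    have dx : |(P ^ 2 + Y * (Q ^ 2 + S ^ 2)) - (P' ^ 2 + Y * (Q' ^ 2 + S' ^ 2))| ≤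
        (2 * C + 2 * C * b + 1) * D := by
      have e : (P ^ 2 + Y * (Q ^ 2 + S ^ 2)) - (P' ^ 2 + Y * (Q' ^ 2 + S' ^ 2)) =
          (P + P') * (P - P') + Y * (S + S') * (S - S') + Y * (Q ^ 2 - Q' ^ 2) := by ring
      rw [e]
      have a1 : |(P + P') * (P - P')| ≤ (2 * C) * D := by
        rw [abs_mul, abs_of_nonneg (by linarith)]
        exact mul_le_mul (by linarith) dP (abs_nonneg _) (by positivity)
      have a2 : |Y * (S + S') * (S - S')| ≤ (2 * C * b) * D := by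
        rw [abs_mul, abs_of_nonneg (mul_nonneg hY (by linarith))]
        refine mul_le_mul ?_ dS (abs_nonneg _) (by positivity)
        calc Y * (S + S') ≤ b * (2 * C) := mul_le_mul hYb (by linarith) (by linarith) hb
          _ = _ := by ring
      have a3 : |Y * (Q ^ 2 - Q' ^ 2)| ≤ 1 * D := by
        rw [abs_mul, abs_of_nonneg hY, one_mul]; exact dQ
      calc _ ≤ |(P + P') * (P - P')| + |Y * (S + S') * (S - S')| + |Y * (Q ^ 2 - Q' ^ 2)| :=
            abs_add_three _ _ _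
        _ ≤ (2 * C) * D + (2 * C * b) * D + 1 * D := add_le_add (add_le_add a1 a2) a3
        _ = _ := by ring
    have dN : |(S + Y * K) - (S' + Y * K')| ≤ 1 * D := by
      have e : (S + Y * K) - (S' + Y * K') = (S - S') + Y * (K - K') := by ring
      rw [e, one_mul]
      calc _ ≤ |S - S'| + |Y * (K - K')| := abs_add_le _ _
        _ = |S - S'| + Y * |K - K'| := by rw [abs_mul, abs_of_nonneg hY]
        _ ≤ D := dSK
    obtain ⟨hu, hn⟩ := core (D := D) hc hC hb hY hYb h1 h3 h4 h6 k1 k3 k4 k6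
      (by positivity) zero_le_one dx dN
    rw [omn_eq, omn_eq]
    exact hn.mul ((hu.mul hu).mul hu)
  have A2 : ∀ P Q S K P' Q' S' K' Y : ℝ, c ≤ P → P ≤ C → c ≤ S → S ≤ C → |Q| ≤ C → |K| ≤ C →
      c ≤ P' → P' ≤ C → c ≤ S' → S' ≤ C → |Q'| ≤ C → |K'| ≤ C → 0 ≤ Y → Y ≤ b →
      LB (|P - P'| + |S - S'| + |Q ^ 2 - Q' ^ 2| + |K - K'|) c2 l2
        (omn' P Q S K Y) (omn' P' Q' S' K' Y) := by
    intro P Q S K P' Q' S' K' Y h1 h2 h3 h4 h5 h6 k1 k2 k3 k4 k5 k6 hY hYb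
    set D := |P - P'| + |S - S'| + |Q ^ 2 - Q' ^ 2| + |K - K'| with hD
    have dP : |P - P'| ≤ D := by
      have : 0 ≤ |S - S'| + |Q ^ 2 - Q' ^ 2| + |K - K'| := by positivity
      rw [hD]; linarith
    have dS : |S - S'| ≤ D := by
      have : 0 ≤ |P - P'| + |Q ^ 2 - Q' ^ 2| + |K - K'| := by positivity
      rw [hD]; linarith
    have dQ : |Q ^ 2 - Q' ^ 2| ≤ D := by
      have : 0 ≤ |P - P'| + |S - S'| + |K - K'| := by positivity
      rw [hD]; linarith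
    have dK : |K - K'| ≤ D := by
      have : 0 ≤ |P - P'| + |S - S'| + |Q ^ 2 - Q' ^ 2| := by positivity
      rw [hD]; linarith
    have dx : |(P ^ 2 + Y * (Q ^ 2 + S ^ 2)) - (P' ^ 2 + Y * (Q' ^ 2 + S' ^ 2))| ≤
        (2 * C + 2 * C * b + b) * D := by
      have e : (P ^ 2 + Y * (Q ^ 2 + S ^ 2)) - (P' ^ 2 + Y * (Q' ^ 2 + S' ^ 2)) =
          (P + P') * (P - P') + Y * (S + S') * (S - S') + Y * (Q ^ 2 - Q' ^ 2) := by ring
      rw [e]
      have a1 : |(P + P') * (P - P')| ≤ (2 * C) * D := by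
        rw [abs_mul, abs_of_nonneg (by linarith)]
        exact mul_le_mul (by linarith) dP (abs_nonneg _) (by positivity)
      have a2 : |Y * (S + S') * (S - S')| ≤ (2 * C * b) * D := by
        rw [abs_mul, abs_of_nonneg (mul_nonneg hY (by linarith))]
        refine mul_le_mul ?_ dS (abs_nonneg _) (by positivity)
        calc Y * (S + S') ≤ b * (2 * C) := mul_le_mul hYb (by linarith) (by linarith) hb
          _ = _ := by ring
      have a3 : |Y * (Q ^ 2 - Q' ^ 2)| ≤ b * D := by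
        rw [abs_mul, abs_of_nonneg hY]; exact mul_le_mul hYb dQ (abs_nonneg _) hb
      calc _ ≤ |(P + P') * (P - P')| + |Y * (S + S') * (S - S')| + |Y * (Q ^ 2 - Q' ^ 2)| :=
            abs_add_three _ _ _
        _ ≤ (2 * C) * D + (2 * C * b) * D + b * D := add_le_add (add_le_add a1 a2) a3
        _ = _ := by ring
    have dN : |(S + Y * K) - (S' + Y * K')| ≤ (1 + b) * D := by
      have e : (S + Y * K) - (S' + Y * K') = (S - S') + Y * (K - K') := by ring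
      rw [e]
      calc _ ≤ |S - S'| + |Y * (K - K')| := abs_add_le _ _
        _ = |S - S'| + Y * |K - K'| := by rw [abs_mul, abs_of_nonneg hY]
        _ ≤ D + b * D := add_le_add dS (mul_le_mul hYb dK (abs_nonneg _) hb)
        _ = _ := by ring
    obtain ⟨hu, hn⟩ := core (D := D) hc hC hb hY hYb h1 h3 h4 h6 k1 k3 k4 k6
      (by positivity) (by positivity) dx dN
    have hG : LB D (2 * C ^ 2) (1 + 2 * C) (Q ^ 2 + S ^ 2) (Q' ^ 2 + S' ^ 2) := by
      refine ⟨by positivity, by positivity, gb hc hC h3 h4 h5, gb hc hC k3 k4 k5, ?_⟩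
      have e : Q ^ 2 + S ^ 2 - (Q' ^ 2 + S' ^ 2) = (Q ^ 2 - Q' ^ 2) + (S + S') * (S - S') := by
        ring
      rw [e]
      calc _ ≤ |Q ^ 2 - Q' ^ 2| + |(S + S') * (S - S')| := abs_add_le _ _
        _ ≤ D + (2 * C) * D := by
            refine add_le_add dQ ?_
            rw [abs_mul, abs_of_nonneg (by linarith)]
            exact mul_le_mul (by linarith) dS (abs_nonneg _) (by positivity)
        _ = _ := by ring
    have hK : LB D C 1 K K' := ⟨hC, zero_le_one, h6, k6, by rw [one_mul]; exact dK⟩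
    have h32 : LB D (3 / 2) 0 (3 / 2) (3 / 2) :=
      LB.const (by rw [abs_of_pos (by norm_num)])
    rw [omn'_eq, omn'_eq]
    have hu3 := (hu.mul hu).mul hu
    have hu5 := (hu3.mul hu).mul hu
    exact (hK.mul hu3).sub (((h32.mul hn).mul hG).mul hu5)
  clear_value c1 l1 c2 l2
  refine ⟨c1 + l1 + c2 + l2, add_nonneg (add_nonneg (add_nonneg hc10 hl10) hc20) hl20, ?_, ?_⟩
  · intro P Q S K Y h1 h2 h3 h4 h5 h6 hY hYb
    have a := A1 P Q S K P Q S K Y h1 h2 h3 h4 h5 h6 h1 h2 h3 h4 h5 h6 hY hYb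
    have a' := A2 P Q S K P Q S K Y h1 h2 h3 h4 h5 h6 h1 h2 h3 h4 h5 h6 hY hYb
    exact ⟨a.ba.trans (by linarith), a'.ba.trans (by linarith)⟩
  · intro P Q S K P' Q' S' K' Y h1 h2 h3 h4 h5 h6 k1 k2 k3 k4 k5 k6 hY hYb
    have a := A1 P Q S K P' Q' S' K' Y h1 h2 h3 h4 h5 h6 k1 k2 k3 k4 k5 k6 hY hYb
    have a' := A2 P Q S K P' Q' S' K' Y h1 h2 h3 h4 h5 h6 k1 k2 k3 k4 k5 k6 hY hYb
    exact ⟨a.l.trans (mul_le_mul_of_nonneg_right (by linarith) (by positivity)),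
      a'.l.trans (mul_le_mul_of_nonneg_right (by linarith) (by positivity))⟩

end Pool.Agent.Lib.MP_85963d_gt.H84
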