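import Pool.Agent.Lib.MP_85963d_gt.H70.Forms2

/-!
# VARPI: functionals which separate two linearly independent continuous functions
-/

set_option autoImplicit false

open MeasureTheory Set Filter Topology Real
open scoped ContDiff

namespace Pool.Agent.MP85963d.H84

theorem integrable_mul {t₁ : ℝ} {g w : ℝ → ℝ} (hg : ContinuousOn g (Ioo 0 t₁))
    (hw : ContDiff ℝ ∞ w) (hc : HasCompactSupport w) (hs : tsupport w ⊆ Ioo 0 t₁) :
    Integrable fun t => w t * g t := by
  have h1 : Function.support (fun t => w t * g t) ⊆ tsupport w := by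
    intro t ht
    apply subset_tsupport
    intro h
    exact ht (by simp [h])
  rw [← integrableOn_iff_integrable_of_support_subset h1]
  exact ContinuousOn.integrableOn_compact hc (hw.continuous.continuousOn.mul (hg.mono hs))

theorem interval_eq {t₁ : ℝ} {g w : ℝ → ℝ} (hs : tsupport w ⊆ Ioo 0 t₁) :
    ∫ t in (0:ℝ)..t₁, w t * g t = ∫ t, w t * g t := by
  apply intervalIntegral.integral_eq_integral_of_support_subset
  intro t ht
  have h1 : t ∈ tsupport w := by
    apply subset_tsupport
    intro h
    exact ht (by simp [h])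
  exact ⟨(hs h1).1, (hs h1).2.le⟩

/-- VARPI. -/
theorem varpi_holds : Pool.Agent.Lib.MP_85963d_gt.H70.VarpiStatement := by
  intro t₁ g ht₁ hg hind
  have key : ∀ x : Fin 2 → ℝ, x ≠ 0 → ∃ w : ℝ → ℝ, ContDiff ℝ ∞ w ∧ HasCompactSupport w ∧
      tsupport w ⊆ Ioo 0 t₁ ∧
      x 0 * (∫ t in (0:ℝ)..t₁, w t * g 0 t) + x 1 * (∫ t in (0:ℝ)..t₁, w t * g 1 t) ≠ 0 := by
    intro x hx
    by_contra hcon
    push Not at hcon
    apply hx
    apply hind
    have hcont : ContinuousOn (fun t => ∑ j, x j * g j t) (Ioo 0 t₁) :=
      continuousOn_finsetSum _ fun j _ => continuousOn_const.mul (hg j)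
    have hae := isOpen_Ioo.ae_eq_zero_of_integral_contDiff_smul_eq_zero (μ := volume)
      (f := fun t => ∑ j, x j * g j t) (U := Ioo 0 t₁)
      (hcont.locallyIntegrableOn isOpen_Ioo.measurableSet) (by
        intro w hw hc hs
        have h1 := hcon w hw hc hs
        rw [interval_eq hs, interval_eq hs, ← integral_const_mul, ← integral_const_mul,
          ← integral_add ((integrable_mul (hg 0) hw hc hs).const_mul _)
            ((integrable_mul (hg 1) hw hc hs).const_mul _)] at h1
        rw [← h1]
        refine integral_congr_ae (Eventually.of_forall fun t => ?_)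
        simp only [Fin.sum_univ_two, smul_eq_mul]
        ring)
    have hae' : (fun t => ∑ j, x j * g j t) =ᵐ[volume.restrict (Ioo 0 t₁)] fun _ => (0 : ℝ) := by
      rw [Filter.EventuallyEq, ae_restrict_iff' measurableSet_Ioo]
      exact hae
    exact Measure.eqOn_open_of_ae_eq hae' isOpen_Ioo hcont continuousOn_const
  obtain ⟨w₀, h1, h2, h3, h4⟩ := key ![1, 0] (by
    intro h
    have := congrFun h 0
    simp at this)
  simp only [Matrix.cons_val_zero, Matrix.cons_val_one, one_mul, zero_mul, add_zero] at h4
  obtain ⟨w₁, k1, k2, k3, k4⟩ := key ![-(∫ t in (0:ℝ)..t₁, w₀ t * g 1 t),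
    ∫ t in (0:ℝ)..t₁, w₀ t * g 0 t] (by
      intro h
      have := congrFun h 1
      simp only [Matrix.cons_val_one, Pi.zero_apply] at this
      exact h4 this)
  simp only [Matrix.cons_val_zero, Matrix.cons_val_one] at k4
  refine ⟨![w₀, w₁], ?_, ?_, ?_, ?_⟩
  · intro i; fin_cases i
    · exact h1
    · exact k1
  · intro i; fin_cases i
    · exact h2
    · exact k2
  · intro i; fin_cases i
    · exact h3
    · exact k3
  · rw [Matrix.det_fin_two]
    simp only [Matrix.of_apply, Matrix.cons_val_zero, Matrix.cons_val_one]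
    intro h
    apply k4
    linarith

end Pool.Agent.MP85963d.H84
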